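import Mathlib
import Pool.Agent.Lib.MP_a3366f_nt.Q.Final

/-!
For every odd `t` and every squarefree `D` with `24 ∣ D + t`, the number of `t`-multipartitions of
`(D m ^ 2 + t) / 24` is even for infinitely many `m` prime to six.
-/

namespace Pool.Agent.Variants.MP_a3366f_nt.QuadraticEven

theorem result : ∀ t D : ℕ, Odd t → Squarefree D → 24 ∣ D + t →
    {m : ℕ | Nat.Coprime m 6 ∧
      (∑ x ∈ Finset.Nat.antidiagonalTuple t ((D * m ^ 2 + t) / 24),
        ∏ i, Fintype.card (Nat.Partition (x i))) % 2 = 0}.Infinite :=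
  fun _ _ ht hD h => Pool.Agent.Lib.MP_a3366f_nt.Quad.quad_parity ht hD
    (Nat.mod_eq_zero_of_dvd h) (by norm_num)

end Pool.Agent.Variants.MP_a3366f_nt.QuadraticEven
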